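import Pool.Agent.U796.AP.Base

/-!
# First occurrences of powers of two as least deficient multipliers
-/

namespace Pool.Agent.Results.MP_bcda77_nt.FirstOccurrence

open Pool.Agent.U796.AP

/-- the least prime larger than `2 ^ m` -/
noncomputable def pm (m : ℕ) : ℕ := sInf {q | q.Prime ∧ 2 ^ m < q}

theorem pm_ne (m : ℕ) : {q : ℕ | q.Prime ∧ 2 ^ m < q}.Nonempty := by
  obtain ⟨p, h1, h2⟩ := Nat.exists_infinite_primes (2 ^ m + 1)
  exact ⟨p, h2, by omega⟩

theorem pm_spec (m : ℕ) : (pm m).Prime ∧ 2 ^ m < pm m := Nat.sInf_mem (pm_ne m)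

theorem pm_le {m q : ℕ} (h : q.Prime) (h2 : 2 ^ m < q) : pm m ≤ q := Nat.sInf_le ⟨h, h2⟩

theorem pm_lt (m : ℕ) (hm : 1 ≤ m) : pm m < 2 ^ (m + 1) := by
  obtain ⟨p, hp, h1, h2⟩ := Nat.exists_prime_lt_and_le_two_mul (2 ^ m) (by positivity)
  have h3 := pm_le hp h1
  have h4 : 2 ^ (m + 1) = 2 * 2 ^ m := by ring
  rcases lt_or_eq_of_le (h3.trans h2) with h5 | h5
  · omega
  · exfalso
    have h6 := (pm_spec m).1
    rw [h5] at h6
    have h7 : 2 ≤ 2 ^ m := by
      calc 2 = 2 ^ 1 := rfl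
        _ ≤ 2 ^ m := Nat.pow_le_pow_right (by norm_num) hm
    rcases (Nat.dvd_prime h6).1 (Dvd.intro _ rfl : 2 ∣ 2 * 2 ^ m) with h8 | h8 <;> omega

theorem result (m : ℕ) (hm : 1 ≤ m) :
    (∀ n, 2 ≤ n → n < pm m → a n ≠ 2 ^ m) ∧
    (a (pm m) = 2 ^ m ↔
      ¬ ∃ k, 1 ≤ k ∧ sg k = 2 * k - 1 ∧ pm m + 1 ≤ 2 * k ∧ k < 2 ^ m) := by
  obtain ⟨hp, hlo⟩ := pm_spec m
  have hhi := pm_lt m hm
  have h2m : 2 ^ (m + 1) = 2 * 2 ^ m := by ring
  have hm2 : 2 ≤ 2 ^ m := by
    calc 2 = 2 ^ 1 := rfl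
      _ ≤ 2 ^ m := Nat.pow_le_pow_right (by norm_num) hm
  obtain ⟨i, hi⟩ : ∃ i, m = i + 1 := ⟨m - 1, by omega⟩
  have him : 2 ^ (i + 1) = 2 ^ m := by rw [hi]
  have hi1 : 1 ≤ 2 ^ i := Nat.one_le_two_pow
  have him' : 2 ^ m = 2 * 2 ^ i := by rw [hi]; ring
  constructor
  · intro n hn2 hn ha
    have hmem := a_mem hn2
    rw [ha] at hmem
    rcases Nat.even_or_odd n with he | ho
    · -- even
      have h3 : a n ≤ 3 := by
        rcases even_mem he hn2 with h4 | h4
        · exact (a_le h4).trans (by norm_num)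
        · exact a_le h4
      have hi0 : 2 ^ i = 1 := by
        rcases Nat.eq_zero_or_pos i with h | h
        · rw [h]; rfl
        · exfalso
          have h5 : 2 ^ 1 ≤ 2 ^ i := Nat.pow_le_pow_right (by norm_num) h
          omega
      have h6 : pm m ≤ 3 := pm_le Nat.prime_three (by omega)
      have h7 : n = 2 := by omega
      rw [him', hi0, h7] at hmem
      have h8 := hmem.2.2
      have h9 := sg_two_pow 2
      norm_num at h8 h9
      omega
    · -- odd
      have h4 : 2 ^ i ∈ W n := by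
        rw [two_pow_mem ho, him]
        by_cases hnp : n.Prime
        · have h5 : n ≤ 2 ^ m := by
            by_contra h
            exact absurd (pm_le hnp (not_le.1 h)) (not_le.2 hn)
          have h6 : n ≠ 2 ^ m := by
            intro h
            rw [h, him'] at ho
            exact (Nat.not_odd_iff_even.2 ⟨2 ^ i, by ring⟩) ho
          rw [sg_prime hnp]
          have h7 : n + 1 ≤ 2 ^ m := by omega
          nlinarith
        · obtain ⟨c, hc1, hc2, hc3⟩ := Nat.exists_dvd_of_not_prime hn2 hnp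
          have hco : Odd c := Odd.of_dvd_nat ho hc1
          have hc0 : 3 ≤ c := by
            obtain ⟨u, hu⟩ := hco
            omega
          have h5 := sg_ge' hn2 hc1 hc2 hc3
          obtain ⟨s, hs⟩ : ∃ s, sg n = n + c + 1 + s := ⟨sg n - (n + c + 1), by omega⟩
          rw [hs]
          have h6 : s ≤ 2 ^ m * s := Nat.le_mul_of_pos_left s (by positivity)
          have h7 : n < 2 * 2 ^ m := by omega
          have h8 : 2 ^ m * 4 + (c + 1) ≤ 2 ^ m * (c + 1) + 4 := by
            obtain ⟨e, he⟩ : ∃ e, c = 3 + e := ⟨c - 3, by omega⟩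
            rw [he]
            nlinarith
          nlinarith
      have h5 := a_le h4
      omega
  · have hpo : Odd (pm m) := hp.odd_of_ne_two (by omega)
    have hp2 : 2 ≤ pm m := hp.two_le
    have hmemm : 2 ^ m ∈ W (pm m) := two_pow_mem_large hpo hp2 hhi
    have hcop : ∀ k, 1 ≤ k → k < pm m → Nat.Coprime k (pm m) := by
      intro k h1 h2
      exact Nat.Coprime.symm ((Nat.Prime.coprime_iff_not_dvd hp).2
        (fun h => absurd (Nat.le_of_dvd (by omega) h) (not_le.2 h2)))
    have hiff : ∀ k, 1 ≤ k → k < pm m → sg k + 1 = 2 * k →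
        (k ∈ W (pm m) ↔ pm m + 1 ≤ 2 * k) := by
      intro k h1 h2 h3
      have h4 : sg (k * pm m) + (pm m + 1) = 2 * k * (pm m + 1) := by
        rw [sg_coprime (hcop k h1 h2), sg_prime hp, ← h3]; ring
      have h5 : 2 * k * (pm m + 1) = 2 * (k * pm m) + 2 * k := by ring
      constructor
      · rintro ⟨_, _, h⟩
        omega
      · intro h
        exact ⟨h1, by omega, by omega⟩
    obtain ⟨j, _, _, hap, _⟩ := structure_odd hpo hp2
    have ham := a_mem hp2
    constructor
    · rintro ha ⟨k, h1, h2, h3, h4⟩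
      have h5 := a_le ((hiff k h1 (by omega) (by omega)).2 h3)
      omega
    · intro hno
      apply le_antisymm (a_le hmemm)
      by_contra hcon
      rw [not_le] at hcon
      apply hno
      refine ⟨a (pm m), ham.1, by omega, ?_, hcon⟩
      exact (hiff _ ham.1 (by omega) hap).1 ham

end Pool.Agent.Results.MP_bcda77_nt.FirstOccurrence
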